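import Pool.Agent.PLG.Stmts

/-!
Squad PLG, row DIM: most lines have half of the rank at a small scale.
-/

set_option autoImplicit false

namespace Pool.Agent.PLG.H36

open Module

section

variable {E : Type} [NormedAddCommGroup E] [NormedSpace ℝ E] {f : ℂ →+ E} {G : AddSubgroup ℂ}

theorem bs_le_sp (h : Dsc f G) (r : ℝ) : bs f G r ≤ sp G := by
  refine Submodule.span_mono ?_
  intro x hx
  rw [Finset.mem_coe, mem_bl h] at hx
  exact hx.1

theorem sp_lp_le_sl (t : ℝ) : sp (lp G t) ≤ sl t := by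
  refine Submodule.span_le.2 ?_
  intro x hx
  exact (mem_lp.1 hx).2

theorem sp_lp_le (t : ℝ) : sp (lp G t) ≤ sp G := sp_mono lp_le

theorem add_le (hf : FiniteDimensional ℚ (sp G)) {s t : ℝ} (hst : s ≠ t) :
    finrank ℚ (sp (lp G s)) + finrank ℚ (sp (lp G t)) ≤ finrank ℚ (sp G) := by
  haveI : FiniteDimensional ℚ (sp (lp G s)) := Submodule.finiteDimensional_of_le (sp_lp_le s)
  haveI : FiniteDimensional ℚ (sp (lp G t)) := Submodule.finiteDimensional_of_le (sp_lp_le t)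
  have h1 := Submodule.finrank_sup_add_finrank_inf_eq (sp (lp G s)) (sp (lp G t))
  have h2 : finrank ℚ (sp (lp G s) ⊔ sp (lp G t) : Submodule ℚ ℂ) ≤ finrank ℚ (sp G) :=
    Submodule.finrank_mono (sup_le (sp_lp_le s) (sp_lp_le t))
  have h3 : sp (lp G s) ⊓ sp (lp G t) = ⊥ := by
    rw [eq_bot_iff]
    rintro x ⟨hx1, hx2⟩
    rw [Submodule.mem_bot]
    exact eq_zero_of_slopes hst (sp_lp_le_sl s hx1) (sp_lp_le_sl t hx2)
  rw [h3, finrank_bot] at h1
  omega

end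

/-- the numerical part: two applications of the covering lemma -/
theorem num {j K τ c1 c2 : ℝ} {d h e : ℕ} (hj : 0 < j) (hK : 1 ≤ K) (hτ : 0 < τ)
    (hρ : K * τ ≤ 1) (hh : 2 * h ≤ d) (he : 2 * e < d) (hle : e ≤ h)
    (h1 : j ≤ (1 + 2 * 1 / (K * τ)) ^ h * c1) (h2 : c1 ≤ (1 + 2 * (K * τ) / τ) ^ e * c2)
    (hc1 : 0 ≤ c1) (hc2 : 0 ≤ c2) :
    j ^ 2 * (K * τ ^ d) ≤ 9 ^ d * c2 ^ 2 := by
  have hK0 : 0 < K := by linarith
  have hKt : 0 < K * τ := by positivity
  have hτ1 : τ ≤ 1 := by nlinarith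
  -- first step
  have a1 : j * (K * τ) ^ h ≤ 3 ^ h * c1 := by
    have b1 : (1 + 2 * 1 / (K * τ)) ≤ 3 / (K * τ) := by
      rw [le_div_iff₀ hKt]
      have : (1 + 2 * 1 / (K * τ)) * (K * τ) = K * τ + 2 := by
        field_simp
      rw [this]
      linarith
    have b2 : (1 + 2 * 1 / (K * τ)) ^ h ≤ (3 / (K * τ)) ^ h :=
      pow_le_pow_left₀ (by positivity) b1 h
    have b3 : j ≤ (3 / (K * τ)) ^ h * c1 := h1.trans (mul_le_mul_of_nonneg_right b2 hc1)
    rw [div_pow, div_mul_eq_mul_div, le_div_iff₀ (pow_pos hKt h)] at b3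
    exact b3
  -- second step
  have a2 : c1 ≤ (3 * K) ^ e * c2 := by
    have b1 : 1 + 2 * (K * τ) / τ ≤ 3 * K := by
      have : 2 * (K * τ) / τ = 2 * K := by
        field_simp
      rw [this]
      linarith
    exact h2.trans (mul_le_mul_of_nonneg_right (pow_le_pow_left₀ (by positivity) b1 e) hc2)
  have a3 : j * (K * τ) ^ h ≤ 3 ^ h * ((3 * K) ^ e * c2) :=
    a1.trans (mul_le_mul_of_nonneg_left a2 (by positivity))
  have a4 : j * (K ^ (h - e) * τ ^ h) ≤ 3 ^ d * c2 := by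
    have b1 : (K * τ) ^ h = K ^ e * (K ^ (h - e) * τ ^ h) := by
      rw [mul_pow, ← mul_assoc, ← pow_add, Nat.add_sub_cancel' hle]
    have b2 : K ^ e * (j * (K ^ (h - e) * τ ^ h)) ≤ K ^ e * (3 ^ (h + e) * c2) := by
      calc K ^ e * (j * (K ^ (h - e) * τ ^ h)) = j * (K * τ) ^ h := by rw [b1]; ring
        _ ≤ 3 ^ h * ((3 * K) ^ e * c2) := a3
        _ = K ^ e * (3 ^ (h + e) * c2) := by rw [mul_pow, pow_add]; ring
    have b3 := le_of_mul_le_mul_left b2 (pow_pos hK0 e)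
    have b4 : (3 : ℝ) ^ (h + e) ≤ 3 ^ d := pow_le_pow_right₀ (by norm_num) (by omega)
    exact b3.trans (mul_le_mul_of_nonneg_right b4 hc2)
  have a5 : (j * (K ^ (h - e) * τ ^ h)) ^ 2 ≤ (3 ^ d * c2) ^ 2 :=
    pow_le_pow_left₀ (by positivity) a4 2
  have a6 : K * τ ^ d ≤ (K ^ (h - e) * τ ^ h) ^ 2 := by
    have b0 : (K ^ (h - e) * τ ^ h) ^ 2 = K ^ (2 * (h - e)) * τ ^ (2 * h) := by
      rw [mul_pow, ← pow_mul, ← pow_mul, mul_comm (h - e) 2, mul_comm h 2]
    rw [b0]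
    rcases Nat.lt_or_ge (2 * h) d with hlt | hge
    · have b1 : K * τ ^ d = (K * τ) * τ ^ (d - 1) := by
        obtain ⟨m, rfl⟩ : ∃ m, d = m + 1 := ⟨d - 1, by omega⟩
        rw [Nat.add_sub_cancel, pow_succ]
        ring
      rw [b1]
      have b2 : τ ^ (d - 1) ≤ τ ^ (2 * h) :=
        pow_le_pow_of_le_one hτ.le hτ1 (by omega)
      have b3 : (1 : ℝ) ≤ K ^ (2 * (h - e)) := one_le_pow₀ hK
      exact mul_le_mul (hρ.trans b3) b2 (by positivity) (by positivity)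
    · have b1 : d = 2 * h := by omega
      rw [b1]
      refine mul_le_mul_of_nonneg_right ?_ (by positivity)
      calc K = K ^ 1 := (pow_one K).symm
        _ ≤ K ^ (2 * (h - e)) := pow_le_pow_right₀ hK (by omega)
  calc j ^ 2 * (K * τ ^ d) ≤ j ^ 2 * (K ^ (h - e) * τ ^ h) ^ 2 :=
        mul_le_mul_of_nonneg_left a6 (by positivity)
    _ = (j * (K ^ (h - e) * τ ^ h)) ^ 2 := by ring
    _ ≤ (3 ^ d * c2) ^ 2 := a5
    _ = 9 ^ d * c2 ^ 2 := by
      rw [mul_pow, ← pow_mul, mul_comm d 2, pow_mul]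
      norm_num

theorem dim_ (hcov : CovStmt) (hslc : SlcStmt) (hgro : GroStmt) : DimStmt := by
  classical
  intro d
  have hc0 : (1 : ℝ) ≤ (72 * ((d : ℝ) + 2)) ^ d := by
    refine one_le_pow₀ ?_
    have : (0 : ℝ) ≤ d := Nat.cast_nonneg d
    linarith
  refine ⟨36 * (72 * ((d : ℝ) + 2)) ^ d, by linarith, ?_⟩
  intro E _ _ f G Θ L j τ hD hfd hd hL hτ hρ hG hcard hj hjt hlines htot
  set C : ℝ := (72 * ((d : ℝ) + 2)) ^ d with hC
  set K : ℝ := 36 * C * L with hK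
  have hd0 : (0 : ℝ) ≤ d := Nat.cast_nonneg d
  have hK4 : 4 ≤ K := by
    rw [hK]
    nlinarith
  have hK0 : 0 < K := by linarith
  have hKt : 0 < K * τ := by positivity
  have hρ8 : 8 * (K * τ) ≤ 1 := by
    have : 8 * (K * τ) ≤ 8 * ((d : ℝ) + 1) * (K * τ) := by
      refine mul_le_mul_of_nonneg_right ?_ hKt.le
      linarith
    exact this.trans hρ
  have hρ1 : K * τ ≤ 1 := by linarith
  have hfl : ∀ t, FiniteDimensional ℚ (sp (lp G t)) := fun t =>
    Submodule.finiteDimensional_of_le (sp_lp_le t)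
  have hel : ∀ t, finrank ℚ (bs f (lp G t) (K * τ)) ≤ finrank ℚ (sp (lp G t)) := fun t => by
    haveI := hfl t
    exact Submodule.finrank_mono (bs_le_sp (hD.lp t) _)
  have hel1 : ∀ t, finrank ℚ (bs f (lp G t) 1) ≤ finrank ℚ (sp (lp G t)) := fun t => by
    haveI := hfl t
    exact Submodule.finrank_mono (bs_le_sp (hD.lp t) _)
  -- the bad slopes
  set B : Finset ℝ := Θ.filter fun t =>
    2 * finrank ℚ (sp (lp G t)) ≤ d ∧ 2 * finrank ℚ (bs f (lp G t) (K * τ)) < d with hB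
  set q : ℝ := Real.sqrt (j ^ 2 * (K * τ ^ d) / 9 ^ d) with hq
  have hqn : 0 ≤ j ^ 2 * (K * τ ^ d) / 9 ^ d := by positivity
  have hq2 : q ^ 2 = j ^ 2 * (K * τ ^ d) / 9 ^ d := Real.sq_sqrt hqn
  have hq3 : 3 ≤ q := by
    rw [hq]
    refine Real.le_sqrt_of_sq_le ?_
    rw [le_div_iff₀ (by positivity)]
    have h1 : (9 * 9 ^ d) * 1 ≤ (j ^ 2 * τ ^ d) * K :=
      mul_le_mul hjt (by linarith) (by norm_num) (by positivity)
    nlinarith
  have hbad : ∀ t ∈ B, q ≤ cnt f (lp G t) τ := by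
    intro t ht
    rw [hB, Finset.mem_filter] at ht
    obtain ⟨ht1, ht2, ht3⟩ := ht
    have c1 := hcov E f (lp G t) 1 (K * τ) _ (hD.lp t) zero_le_one hKt (hel1 t)
    have c2 := hcov E f (lp G t) (K * τ) τ _ (hD.lp t) hKt.le hτ le_rfl
    have n1 := num (d := d) hj (by linarith) hτ hρ1 ht2 ht3 (hel t)
      ((hlines t ht1).trans c1) c2 (Nat.cast_nonneg _) (Nat.cast_nonneg _)
    rw [hq]
    refine Real.sqrt_le_iff.2 ⟨Nat.cast_nonneg _, ?_⟩
    rw [div_le_iff₀ (by positivity)]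
    linarith
  have hs := hslc E f G B τ q hD hτ.le hq3 hbad
  have hbsG : bs f G τ = sp G := by
    refine le_antisymm (bs_le_sp hD _) ?_
    refine Submodule.span_le.2 ?_
    intro x hx
    exact hG x hx
  have hg := hgro E f G d τ (2 * τ) hD hτ (by linarith) (by
    have h1 : 8 * ((d : ℝ) + 1) * (2 * τ) ≤ 8 * ((d : ℝ) + 1) * (K * τ) := by
      refine mul_le_mul_of_nonneg_left ?_ (by positivity)
      exact mul_le_mul_of_nonneg_right (by linarith) hτ.le
    exact h1.trans hρ) (by rw [hbsG]; exact hd) hG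
  -- the number of the bad slopes
  have hBc : 4 * ((B.card : ℝ) - 1) ≤ Θ.card := by
    have e1 : ((B.card : ℝ) - 1) * q ^ 2 ≤
        9 * ((4 * ((d : ℝ) + 2) * (2 * τ)) ^ d * (L * Θ.card * j ^ 2)) := by
      refine hs.trans (mul_le_mul_of_nonneg_left ?_ (by norm_num))
      exact hg.trans (mul_le_mul_of_nonneg_left htot (by positivity))
    have e2 : q ^ 2 * 9 ^ d = j ^ 2 * (K * τ ^ d) := by
      rw [hq2, div_mul_cancel₀ _ (by positivity)]
    have e3 : ((B.card : ℝ) - 1) * (j ^ 2 * (K * τ ^ d)) ≤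
        9 * (C * τ ^ d * (L * Θ.card * j ^ 2)) := by
      calc ((B.card : ℝ) - 1) * (j ^ 2 * (K * τ ^ d))
          = (((B.card : ℝ) - 1) * q ^ 2) * 9 ^ d := by rw [← e2]; ring
        _ ≤ (9 * ((4 * ((d : ℝ) + 2) * (2 * τ)) ^ d * (L * Θ.card * j ^ 2))) * 9 ^ d :=
            mul_le_mul_of_nonneg_right e1 (by positivity)
        _ = 9 * (C * τ ^ d * (L * Θ.card * j ^ 2)) := by
            have : (4 * ((d : ℝ) + 2) * (2 * τ)) ^ d * 9 ^ d = C * τ ^ d := by
              rw [hC, ← mul_pow, ← mul_pow]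
              congr 1
              ring
            rw [← this]
            ring
    have e4 : (j ^ 2 * τ ^ d * C * L * 9) * (4 * ((B.card : ℝ) - 1)) ≤
        (j ^ 2 * τ ^ d * C * L * 9) * Θ.card := by
      calc (j ^ 2 * τ ^ d * C * L * 9) * (4 * ((B.card : ℝ) - 1))
          = ((B.card : ℝ) - 1) * (j ^ 2 * (K * τ ^ d)) := by rw [hK]; ring
        _ ≤ 9 * (C * τ ^ d * (L * Θ.card * j ^ 2)) := e3
        _ = (j ^ 2 * τ ^ d * C * L * 9) * Θ.card := by ring
    exact le_of_mul_le_mul_left e4 (by positivity)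
  -- the slopes of large rank
  set A : Finset ℝ := Θ.filter fun t => d < 2 * finrank ℚ (sp (lp G t)) with hA
  have hAc : A.card ≤ 1 := by
    rw [Finset.card_le_one]
    intro s hs t ht
    rw [hA, Finset.mem_filter] at hs ht
    by_contra hne
    have := add_le hfd hne
    omega
  set T : Finset ℝ := (Θ \ B) \ A with hT
  have hTc : Θ.card ≤ 3 * T.card := by
    have k1 : Θ.card ≤ (Θ \ B).card + B.card := Finset.card_le_card_sdiff_add_card
    have k2 : (Θ \ B).card ≤ T.card + A.card := Finset.card_le_card_sdiff_add_card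
    have k3 : 4 * B.card ≤ Θ.card + 4 := by
      have : (4 * (B.card : ℝ)) ≤ Θ.card + 4 := by linarith
      exact_mod_cast this
    omega
  have hTm : ∀ t ∈ T, 2 * finrank ℚ (bs f (lp G t) (K * τ)) = d := by
    intro t ht
    rw [hT, Finset.mem_sdiff, Finset.mem_sdiff, hA, hB, Finset.mem_filter, Finset.mem_filter] at ht
    obtain ⟨⟨ht0, ht1⟩, ht2⟩ := ht
    have k1 : ¬ d < 2 * finrank ℚ (sp (lp G t)) := fun h => ht2 ⟨ht0, h⟩
    have k2 : ¬ 2 * finrank ℚ (bs f (lp G t) (K * τ)) < d := fun h => ht1 ⟨ht0, by omega, h⟩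
    have k3 := hel t
    omega
  have hne : T.Nonempty := by
    rw [← Finset.card_pos]
    omega
  obtain ⟨t₀, ht₀⟩ := hne
  refine ⟨finrank ℚ (bs f (lp G t₀) (K * τ)), (hTm t₀ ht₀).symm, T, ?_, hTc, ?_⟩
  · exact Finset.sdiff_subset.trans Finset.sdiff_subset
  · intro t ht
    have k1 := hTm t ht
    have k2 := hTm t₀ ht₀
    omega

end Pool.Agent.PLG.H36
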